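import Pool.Agent.V1143.CD.Rep

/-!
# Characters of the absolute Galois group of `ℚ`: integral and pure, and de Rham
-/

set_option autoImplicit false

noncomputable section

namespace Pool.Agent.V1143.HC

open Pool.Agent.V1143.CD NumberField TensorProduct

variable (l : ℕ) [hl : Fact l.Prime]

/-- A one-dimensional representation `ρ : G_ℚ → GL₁(ℚ̄_l)` of the absolute Galois group of `ℚ`. -/
abbrev Character : Type := GQ →* (PadicAlgCl l)ˣ

variable {l}

/-- The character `ρ` is unramified at `p`: it is trivial on the inertia groups of all the maximal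
ideals `P` above `p` of the ring of all algebraic integers. -/
def Unram (ρ : Character l) (p : ℕ) : Prop :=
  ∀ P : Ideal (𝓞 Qb), P.IsMaximal → (p : 𝓞 Qb) ∈ P → ∀ g : GQ, (∀ x : 𝓞 Qb, g • x - x ∈ P) →
    ρ g = 1

/-- `z` is an algebraic integer all of whose complex conjugates have absolute value
`p ^ (w / 2)`. -/
def IsWeilInteger (z : PadicAlgCl l) (p : ℕ) (w : ℤ) : Prop :=
  IsIntegral ℤ z ∧ ∀ c : ℂ, Polynomial.aeval c (minpoly ℚ z) = 0 → ‖c‖ = (p : ℝ) ^ ((w : ℝ) / 2)

/-- For a character `ρ` which is unramified at `p`: the Weil-Deligne representation of `ρ` at `p`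
(which is `ρ`, with `N = 0`) is integral and pure of weight `w`. This means that `ρ g⁻¹` is an algebraic
integer with all complex absolute values equal to `p ^ (w / 2)`, for every arithmetic Frobenius
element `g` (so that `g⁻¹` is a geometric one) at a maximal ideal `P` above `p`. -/
def IntegralPure (ρ : Character l) (p : ℕ) (w : ℤ) : Prop :=
  ∀ P : Ideal (𝓞 Qb), P.IsMaximal → (p : 𝓞 Qb) ∈ P → ∀ g : GQ, IsFrob p P g →
    IsWeilInteger ((ρ g⁻¹ : (PadicAlgCl l)ˣ) : PadicAlgCl l) p w

variable (l)

/-- The structure of Fontaine's field `B_dR` for `ℚ_l` that we need: a field `B` over `ℚ_l` with an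
action of the absolute Galois group of `ℚ_l`, with field of invariants `ℚ_l`, and a discrete
valuation `v`, trivial on `ℚ_l`, with a uniformizer `t` such that `g t = χ(g) t`. -/
structure DeRhamField where
  /-- the field -/
  B : Type
  [field : Field B]
  [algebra : Algebra ℚ_[l] B]
  /-- the action -/
  σ : GLoc l →* (B ≃ₐ[ℚ_[l]] B)
  /-- the valuation -/
  v : AddValuation B (WithTop ℤ)
  /-- the period of the cyclotomic character -/
  t : B
  v_t : v t = 1
  σ_t : ∀ g : GLoc l, σ g t = algebraMap ℚ_[l] B ((chi l (res l g) : ℤ_[l]) : ℚ_[l]) * t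
  v_alg : ∀ x : ℚ_[l], x ≠ 0 → v (algebraMap ℚ_[l] B x) = 0
  inv : ∀ b : B, (∀ g, σ g b = b) → ∃ x : ℚ_[l], b = algebraMap ℚ_[l] B x

attribute [instance] DeRhamField.field DeRhamField.algebra

variable {l}

/-- The space `B ⊗ V` for `V = ℚ̄_l`. -/
def DeRhamField.T (D : DeRhamField l) : Type := D.B ⊗[ℚ_[l]] PadicAlgCl l

instance (D : DeRhamField l) : AddCommGroup D.T :=
  TensorProduct.addCommGroup (R := ℚ_[l]) (M := D.B) (N := PadicAlgCl l)

instance (D : DeRhamField l) : Module ℚ_[l] D.T :=
  TensorProduct.instModule (R := ℚ_[l]) (M := D.B) (N := PadicAlgCl l)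

instance (D : DeRhamField l) : Module D.B D.T :=
  TensorProduct.leftModule (R := ℚ_[l]) (R'' := D.B) (M := D.B) (N := PadicAlgCl l)

/-- The action of `g` on `B ⊗ V`, where `V = ℚ̄_l` with the action `ρ`. -/
def DeRhamField.act (D : DeRhamField l) (ρ : Character l) (g : GLoc l) : D.T →ₗ[ℚ_[l]] D.T :=
  TensorProduct.map (D.σ g).toLinearMap
    (LinearMap.mulLeft ℚ_[l] ((ρ (res l g) : (PadicAlgCl l)ˣ) : PadicAlgCl l))

/-- The character `ρ` is de Rham at `l`: the `B`-module `B ⊗ V` is generated by its invariants. -/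
def IsDeRham (D : DeRhamField l) (ρ : Character l) : Prop :=
  Submodule.span D.B {x : D.T | ∀ g : GLoc l, D.act ρ g x = x} = ⊤

end Pool.Agent.V1143.HC
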