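import Pool.Agent.V1143.HC.Root
import Pool.Agent.V1143.HC.Defs
import Pool.Agent.V1143.CD.Objects

/-!
# The half cyclotomic character
-/

set_option autoImplicit false

noncomputable section

namespace Pool.Agent.V1143.HC

open Pool.Agent.V1143.CD NumberField TensorProduct

variable {l : ℕ} [hl : Fact l.Prime] (hl2 : l ≠ 2)

/-- The inclusion of `ℤ_l` in `ℚ̄_l`. -/
def incl (l : ℕ) [Fact l.Prime] : ℤ_[l] →+* PadicAlgCl l :=
  (algebraMap ℚ_[l] (PadicAlgCl l)).comp PadicInt.Coe.ringHom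

lemma incl_apply (z : ℤ_[l]) : incl l z = algebraMap ℚ_[l] (PadicAlgCl l) (z : ℚ_[l]) := rfl

lemma continuous_incl : Continuous (incl l) := by
  have h1 : Continuous (algebraMap ℚ_[l] (PadicAlgCl l)) :=
    (algebraMapCLM ℚ_[l] (PadicAlgCl l)).continuous
  exact h1.comp continuous_subtype_val

/-- The half cyclotomic character, as a map. -/
def halfFun : GQ →* PadicAlgCl l := ((incl l).toMonoidHom.comp (rootHom hl2)).comp (chi l)

/-- The half cyclotomic character. -/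
def half : Character l := (halfFun hl2).toHomUnits

lemma half_val (g : GQ) : ((half hl2 g : (PadicAlgCl l)ˣ) : PadicAlgCl l) =
    incl l (rootVal hl2 (chi l g)) := rfl

lemma half_pow (g : GQ) : ((half hl2 g⁻¹ : (PadicAlgCl l)ˣ) : PadicAlgCl l) ^ (2 * (l - 1)) =
    incl l ((chi l g : ℤ_[l]) ^ (l - 1)) := by
  rw [half_val, ← map_pow, rootVal_pow, map_inv, inv_inv, Units.val_pow_eq_pow_val]

lemma continuous_half : Continuous (half hl2) := by
  have h1 : Continuous fun g : GQ => ((half hl2 g : (PadicAlgCl l)ˣ) : PadicAlgCl l) :=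
    continuous_incl.comp ((continuous_rootVal hl2).comp (continuous_chi l))
  rw [Units.continuous_iff]
  refine ⟨h1, ?_⟩
  have e : (fun g : GQ => (((half hl2 g)⁻¹ : (PadicAlgCl l)ˣ) : PadicAlgCl l)) =
      fun g : GQ => ((half hl2 g⁻¹ : (PadicAlgCl l)ˣ) : PadicAlgCl l) := by
    funext g
    rw [map_inv]
  rw [e]
  exact h1.comp continuous_inv

lemma unram_half {p : ℕ} (hp : p.Prime) (hpl : p ≠ l) : Unram (half hl2) p := by
  intro P hP hpP g hg
  apply Units.ext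
  rw [half_val, chi_inertia hp hpl hP hpP hg]
  change incl l (rootHom hl2 1) = 1
  rw [map_one, map_one]

lemma integralPure_half {p : ℕ} (hp : p.Prime) (hpl : p ≠ l) : IntegralPure (half hl2) p 1 := by
  intro P hP hpP g hg
  have h1 := half_pow hl2 g
  rw [chi_frob hp hpl hP hpP hg, map_pow, map_natCast] at h1
  have hm : 0 < l - 1 := Nat.sub_pos_of_lt hl.out.one_lt
  have hk : 0 < 2 * (l - 1) := by omega
  set z := ((half hl2 g⁻¹ : (PadicAlgCl l)ˣ) : PadicAlgCl l) with hz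
  refine ⟨?_, fun c hc => ?_⟩
  · apply IsIntegral.of_pow hk
    rw [h1]
    exact (isIntegral_natCast p).pow (l - 1)
  · have h2 : minpoly ℚ z ∣ Polynomial.X ^ (2 * (l - 1)) - Polynomial.C ((p : ℚ) ^ (l - 1)) := by
      apply minpoly.dvd
      rw [map_sub, map_pow, Polynomial.aeval_X, Polynomial.aeval_C, h1, map_pow, map_natCast,
        sub_self]
    obtain ⟨r, hr⟩ := h2
    have h3 := congrArg (Polynomial.aeval c) hr
    rw [map_mul, hc, zero_mul, map_sub, map_pow, Polynomial.aeval_X, Polynomial.aeval_C, map_pow,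
      map_natCast, sub_eq_zero] at h3
    have h4 : ‖c‖ ^ (2 * (l - 1)) = (p : ℝ) ^ (l - 1) := by
      rw [← norm_pow, h3, norm_pow, Complex.norm_natCast]
    have h5 : ‖c‖ ^ 2 = (p : ℝ) := by
      rw [pow_mul] at h4
      exact (pow_left_inj₀ (by positivity) (by positivity) hm.ne').1 h4
    have h6 : ((1 : ℤ) : ℝ) / 2 = (1 / 2 : ℝ) := by norm_num
    rw [h6, ← h5, ← Real.sqrt_eq_rpow, Real.sqrt_sq (norm_nonneg c)]

/-- The coordinates of `B ⊗ V`. -/
def coord (D : DeRhamField l) {ι : Type*} (e : Module.Basis ι ℚ_[l] (PadicAlgCl l)) (i : ι) :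
    D.B ⊗[ℚ_[l]] PadicAlgCl l →ₗ[D.B] D.B :=
  (e.baseChange D.B).coord i

lemma coord_tmul (D : DeRhamField l) {ι : Type*} (e : Module.Basis ι ℚ_[l] (PadicAlgCl l)) (i : ι)
    (b : D.B) (m : PadicAlgCl l) : coord D e i (b ⊗ₜ m) = e.repr m i • b := by
  unfold coord
  rw [Module.Basis.coord_apply, Module.Basis.baseChange_repr_tmul]

lemma coord_act (D : DeRhamField l) {ι : Type*} (e : Module.Basis ι ℚ_[l] (PadicAlgCl l)) (i : ι)
    (g : GLoc l) (x : D.B ⊗[ℚ_[l]] PadicAlgCl l) :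
    coord D e i (TensorProduct.map (D.σ g).toLinearMap
      (LinearMap.mulLeft ℚ_[l] ((half hl2 (res l g) : (PadicAlgCl l)ˣ) : PadicAlgCl l)) x) =
    ((rootVal hl2 (chi l (res l g)) : ℤ_[l]) : ℚ_[l]) • D.σ g (coord D e i x) := by
  induction x using TensorProduct.induction_on with
  | zero => simp
  | tmul b m =>
    rw [TensorProduct.map_tmul, coord_tmul, coord_tmul, LinearMap.mulLeft_apply, half_val,
      incl_apply, ← Algebra.smul_def, map_smul, Finsupp.smul_apply, map_smul, smul_smul,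
      smul_eq_mul]
    rfl
  | add x y hx hy =>
    rw [map_add, map_add, hx, hy, map_add, map_add, smul_add]

lemma eq_zero_of_invariant (D : DeRhamField l) {b : D.B}
    (hb : ∀ g : GLoc l, ((rootVal hl2 (chi l (res l g)) : ℤ_[l]) : ℚ_[l]) • D.σ g b = b) :
    b = 0 := by
  by_contra hb0
  have ht0 : D.t ≠ 0 := by
    intro h
    have h1 := D.v_t
    rw [h, AddValuation.map_zero] at h1
    exact WithTop.top_ne_one h1
  have hm : 0 < l - 1 := Nat.sub_pos_of_lt hl.out.one_lt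
  have hinv : ∀ g, D.σ g (b ^ (2 * (l - 1)) / D.t ^ (l - 1)) =
      b ^ (2 * (l - 1)) / D.t ^ (l - 1) := by
    intro g
    set r : ℤ_[l] := rootVal hl2 (chi l (res l g)) with hr
    have h1 : (r : ℚ_[l]) ^ (2 * (l - 1)) * ((chi l (res l g) : ℤ_[l]) : ℚ_[l]) ^ (l - 1) = 1 := by
      have h2 : r ^ (2 * (l - 1)) * (chi l (res l g) : ℤ_[l]) ^ (l - 1) = 1 := by
        rw [hr, rootVal_pow, ← Units.val_pow_eq_pow_val, ← Units.val_mul, ← mul_pow,
          inv_mul_cancel, one_pow, Units.val_one]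
      have := congrArg (fun z : ℤ_[l] => (z : ℚ_[l])) h2
      simpa using this
    have hr0 : algebraMap ℚ_[l] D.B (r : ℚ_[l]) ^ (2 * (l - 1)) ≠ 0 := by
      intro h
      rw [← map_pow, map_eq_zero] at h
      rw [h, zero_mul] at h1
      exact zero_ne_one h1
    have h3 : algebraMap ℚ_[l] D.B (r : ℚ_[l]) ^ (2 * (l - 1)) * (D.σ g b) ^ (2 * (l - 1)) =
        b ^ (2 * (l - 1)) := by
      rw [← mul_pow, ← Algebra.smul_def, hb]
    have h4 : algebraMap ℚ_[l] D.B (r : ℚ_[l]) ^ (2 * (l - 1)) *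
        algebraMap ℚ_[l] D.B ((chi l (res l g) : ℤ_[l]) : ℚ_[l]) ^ (l - 1) = 1 := by
      rw [← map_pow, ← map_pow, ← map_mul, h1, map_one]
    have hc0 : algebraMap ℚ_[l] D.B ((chi l (res l g) : ℤ_[l]) : ℚ_[l]) ^ (l - 1) ≠ 0 := by
      intro h
      rw [h, mul_zero] at h4
      exact zero_ne_one h4
    rw [map_div₀, map_pow, map_pow, D.σ_t, mul_pow]
    rw [div_eq_div_iff (mul_ne_zero hc0 (pow_ne_zero _ ht0)) (pow_ne_zero _ ht0)]
    calc D.σ g b ^ (2 * (l - 1)) * D.t ^ (l - 1)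
        = (algebraMap ℚ_[l] D.B (r : ℚ_[l]) ^ (2 * (l - 1)) *
          algebraMap ℚ_[l] D.B ((chi l (res l g) : ℤ_[l]) : ℚ_[l]) ^ (l - 1)) *
          (D.σ g b ^ (2 * (l - 1)) * D.t ^ (l - 1)) := by rw [h4, one_mul]
      _ = (algebraMap ℚ_[l] D.B (r : ℚ_[l]) ^ (2 * (l - 1)) * (D.σ g b) ^ (2 * (l - 1))) *
          (algebraMap ℚ_[l] D.B ((chi l (res l g) : ℤ_[l]) : ℚ_[l]) ^ (l - 1) *
            D.t ^ (l - 1)) := by ring
      _ = _ := by rw [h3]
  obtain ⟨x, hx⟩ := D.inv _ hinv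
  have hx0 : x ≠ 0 := by
    rintro rfl
    rw [map_zero, div_eq_zero_iff] at hx
    rcases hx with h | h
    · exact hb0 (pow_eq_zero_iff (by omega) |>.1 h)
    · exact ht0 (pow_eq_zero_iff (by omega) |>.1 h)
  rw [div_eq_iff (pow_ne_zero _ ht0)] at hx
  have hv := congrArg D.v hx
  rw [AddValuation.map_mul, AddValuation.map_pow, AddValuation.map_pow, D.v_alg x hx0, D.v_t,
    zero_add] at hv
  have hvb : D.v b ≠ ⊤ := by
    rw [Ne, AddValuation.top_iff]
    exact hb0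
  obtain ⟨n, hn⟩ := WithTop.ne_top_iff_exists.1 hvb
  rw [← hn] at hv
  have h7 : ((2 * (l - 1) : ℕ) : ℤ) * n = ((l - 1 : ℕ) : ℤ) := by
    have h8 : (2 * (l - 1)) • (n : WithTop ℤ) = (((2 * (l - 1) : ℕ) : ℤ) * n : ℤ) := by
      rw [← WithTop.coe_nsmul, nsmul_eq_mul]
    have h9 : (l - 1) • (1 : WithTop ℤ) = (((l - 1 : ℕ) : ℤ) : WithTop ℤ) := by
      rw [← WithTop.coe_one, ← WithTop.coe_nsmul, nsmul_eq_mul, mul_one]
    rw [h8, h9] at hv
    exact_mod_cast hv
  have h8 : (0 : ℤ) < ((l - 1 : ℕ) : ℤ) := by exact_mod_cast hm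
  push_cast at h7
  have h9 : ((l - 1 : ℕ) : ℤ) * (2 * n - 1) = 0 := by linear_combination h7
  rcases mul_eq_zero.1 h9 with h | h
  · omega
  · omega

lemma not_isDeRham_half (D : DeRhamField l) : ¬ IsDeRham D (half hl2) := by
  intro h
  let e := Module.Basis.ofVectorSpace ℚ_[l] (PadicAlgCl l)
  have h0 : ∀ x : D.B ⊗[ℚ_[l]] PadicAlgCl l, (∀ i, coord D e i x = 0) → x = 0 := by
    intro x hx
    apply (e.baseChange D.B).repr.injective
    rw [map_zero]
    ext i
    exact hx i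
  have h1 : ∀ x : D.T, (∀ g : GLoc l, D.act (half hl2) g x = x) → x = 0 := by
    intro x hx
    refine h0 x fun i => ?_
    apply eq_zero_of_invariant hl2 D
    intro g
    rw [← coord_act hl2 D e i g x]
    exact congrArg (coord D e i) (hx g)
  have h2 : {x : D.T | ∀ g : GLoc l, D.act (half hl2) g x = x} ⊆ {0} := fun x hx => h1 x hx
  have h3 : Submodule.span D.B {x : D.T | ∀ g : GLoc l, D.act (half hl2) g x = x} ≤ ⊥ := by
    rw [Submodule.span_le]
    intro x hx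
    exact h1 x hx
  unfold IsDeRham at h
  rw [h] at h3
  have h4 : ((1 : D.B) ⊗ₜ[ℚ_[l]] (1 : PadicAlgCl l) : D.T) = 0 := by
    have : ((1 : D.B) ⊗ₜ[ℚ_[l]] (1 : PadicAlgCl l) : D.T) ∈ (⊤ : Submodule D.B D.T) := trivial
    exact (Submodule.mem_bot D.B).1 (h3 this)
  have h5 : ∀ i, e.repr (1 : PadicAlgCl l) i = 0 := by
    intro i
    have h6 : coord D e i ((1 : D.B) ⊗ₜ[ℚ_[l]] (1 : PadicAlgCl l)) = 0 := by
      rw [show ((1 : D.B) ⊗ₜ[ℚ_[l]] (1 : PadicAlgCl l)) = 0 from h4, map_zero]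
    rw [coord_tmul, Algebra.smul_def, mul_one, map_eq_zero] at h6
    exact h6
  have h6 : (1 : PadicAlgCl l) = 0 := by
    apply e.repr.injective
    rw [map_zero]
    ext i
    exact h5 i
  exact one_ne_zero h6

end Pool.Agent.V1143.HC
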