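import Mathlib

/-!
# The square root of the inverse of the cyclotomic character, up to a character of finite order
-/

set_option autoImplicit false

namespace Pool.Agent.V1143.HC

variable {l : ℕ} [hl : Fact l.Prime]

lemma norm_sub_one_lt_iff (x : ℤ_[l]) : ‖x - 1‖ < 1 ↔ (l : ℤ_[l]) ∣ x - 1 :=
  PadicInt.norm_lt_one_iff_dvd _

lemma norm_one_of (x : ℤ_[l]) (hx : ‖x - 1‖ < 1) : ‖x‖ = 1 := by
  have h := PadicInt.norm_add_eq_max_of_ne (q := (1 : ℤ_[l])) (r := x - 1)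
    (by rw [norm_one]; exact hx.ne')
  rw [add_sub_cancel, norm_one, max_eq_left hx.le] at h
  exact h

lemma mul_sub_one_lt {x y : ℤ_[l]} (hx : ‖x - 1‖ < 1) (hy : ‖y - 1‖ < 1) : ‖x * y - 1‖ < 1 := by
  rw [norm_sub_one_lt_iff] at *
  have e : x * y - 1 = (x - 1) * y + (y - 1) := by ring
  rw [e]
  exact dvd_add (Dvd.dvd.mul_right hx _) hy

lemma norm_natCast_eq_one {k : ℕ} (hk : Nat.Coprime k l) : ‖(k : ℤ_[l])‖ = 1 := by
  rw [PadicInt.norm_natCast_eq_one_iff]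
  exact hk.symm

/-- Raising to a power prime to `l` is an isometry on `1 + l ℤ_l`. -/
lemma norm_pow_sub_pow {k : ℕ} (hk : Nat.Coprime k l) {x y : ℤ_[l]} (hx : ‖x - 1‖ < 1)
    (hy : ‖y - 1‖ < 1) : ‖x ^ k - y ^ k‖ = ‖x - y‖ := by
  have h1 : x ^ k - y ^ k = (∑ i ∈ Finset.range k, x ^ i * y ^ (k - 1 - i)) * (x - y) :=
    (Commute.all x y).geom_sum₂_mul k |>.symm
  have hpow : ∀ (z : ℤ_[l]), ‖z - 1‖ < 1 → ∀ n : ℕ, ‖z ^ n - 1‖ < 1 := by
    intro z hz n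
    induction n with
    | zero => simp
    | succ n ih =>
      rw [pow_succ]
      exact mul_sub_one_lt ih hz
  have h2 : ‖(∑ i ∈ Finset.range k, x ^ i * y ^ (k - 1 - i)) - (k : ℤ_[l])‖ < 1 := by
    have e : (∑ i ∈ Finset.range k, x ^ i * y ^ (k - 1 - i)) - (k : ℤ_[l]) =
        ∑ i ∈ Finset.range k, (x ^ i * y ^ (k - 1 - i) - 1) := by
      rw [Finset.sum_sub_distrib]
      simp
    rw [e, PadicInt.norm_lt_one_iff_dvd]
    apply Finset.dvd_sum
    intro i _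
    rw [← PadicInt.norm_lt_one_iff_dvd]
    exact mul_sub_one_lt (hpow x hx _) (hpow y hy _)
  have h3 : ‖∑ i ∈ Finset.range k, x ^ i * y ^ (k - 1 - i)‖ = 1 := by
    have h := PadicInt.norm_add_eq_max_of_ne (q := (k : ℤ_[l]))
      (r := (∑ i ∈ Finset.range k, x ^ i * y ^ (k - 1 - i)) - (k : ℤ_[l]))
      (by rw [norm_natCast_eq_one hk]; exact h2.ne')
    rw [add_sub_cancel, norm_natCast_eq_one hk, max_eq_left h2.le] at h
    exact h
  rw [h1, norm_mul, h3, one_mul]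

/-- Roots of order prime to `l` in `1 + l ℤ_l`. -/
lemma exists_root {k : ℕ} (hk : Nat.Coprime k l) {x : ℤ_[l]} (hx : ‖x - 1‖ < 1) :
    ∃ y : ℤ_[l], ‖y - 1‖ < 1 ∧ y ^ k = x := by
  let F : Polynomial ℤ_[l] := Polynomial.X ^ k - Polynomial.C x
  have hF : ∀ y, F.aeval y = y ^ k - x := by
    intro y
    simp [F]
  have hF' : Polynomial.aeval (1 : ℤ_[l]) (Polynomial.derivative F) = (k : ℤ_[l]) := by
    simp [F, Polynomial.derivative_X_pow]
  have hn : ‖F.aeval (1 : ℤ_[l])‖ < ‖(Polynomial.derivative F).aeval (1 : ℤ_[l])‖ ^ 2 := by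
    rw [hF, hF', one_pow, norm_natCast_eq_one hk, one_pow, norm_sub_rev]
    exact hx
  obtain ⟨y, hy, hy1, -, -⟩ := hensels_lemma hn
  refine ⟨y, ?_, ?_⟩
  · rw [hF', norm_natCast_eq_one hk] at hy1
    exact hy1
  · rw [hF] at hy
    exact sub_eq_zero.1 hy

lemma norm_unit_pow_sub_one (x : ℤ_[l]ˣ) : ‖((x ^ (l - 1) : ℤ_[l]ˣ) : ℤ_[l]) - 1‖ < 1 := by
  rw [norm_sub_one_lt_iff]
  have h1 : (PadicInt.toZMod (x : ℤ_[l])) ^ (l - 1) = 1 := by
    apply ZMod.pow_card_sub_one_eq_one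
    intro h
    have h2 : IsUnit (PadicInt.toZMod (x : ℤ_[l])) := x.isUnit.map _
    rw [h] at h2
    exact not_isUnit_zero h2
  have h3 : PadicInt.toZMod (((x ^ (l - 1) : ℤ_[l]ˣ) : ℤ_[l]) - 1) = 0 := by
    rw [map_sub, Units.val_pow_eq_pow_val, map_pow, h1, map_one, sub_self]
  rw [← RingHom.mem_ker, PadicInt.ker_toZMod, PadicInt.maximalIdeal_eq_span_p,
    Ideal.mem_span_singleton] at h3
  exact h3

variable (hl2 : l ≠ 2)

include hl2 in
lemma coprime_two_mul : Nat.Coprime (2 * (l - 1)) l := by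
  have h1 := hl.out.two_le
  have h2 : Nat.Coprime 2 l := (Nat.coprime_primes Nat.prime_two hl.out).2 (Ne.symm hl2)
  have h3 : Nat.Coprime (l - 1) l := by
    have : 0 < l - 1 := by omega
    exact (Nat.coprime_of_lt_prime this.ne' (by omega) hl.out).symm
  exact Nat.Coprime.mul_left h2 h3

/-- The value of the square root. -/
noncomputable def rootVal (x : ℤ_[l]ˣ) : ℤ_[l] :=
  (exists_root (coprime_two_mul hl2) (norm_unit_pow_sub_one x⁻¹)).choose

lemma rootVal_lt (x : ℤ_[l]ˣ) : ‖rootVal hl2 x - 1‖ < 1 :=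
  (exists_root (coprime_two_mul hl2) (norm_unit_pow_sub_one x⁻¹)).choose_spec.1

lemma rootVal_pow (x : ℤ_[l]ˣ) :
    rootVal hl2 x ^ (2 * (l - 1)) = ((x⁻¹ ^ (l - 1) : ℤ_[l]ˣ) : ℤ_[l]) :=
  (exists_root (coprime_two_mul hl2) (norm_unit_pow_sub_one x⁻¹)).choose_spec.2

lemma norm_rootVal_sub (x y : ℤ_[l]ˣ) : ‖rootVal hl2 x - rootVal hl2 y‖ =
    ‖((x⁻¹ ^ (l - 1) : ℤ_[l]ˣ) : ℤ_[l]) - ((y⁻¹ ^ (l - 1) : ℤ_[l]ˣ) : ℤ_[l])‖ := by
  rw [← rootVal_pow hl2, ← rootVal_pow hl2,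
    norm_pow_sub_pow (coprime_two_mul hl2) (rootVal_lt hl2 x) (rootVal_lt hl2 y)]

lemma root_unique {z w : ℤ_[l]} (hz : ‖z - 1‖ < 1) (hw : ‖w - 1‖ < 1) {k : ℕ}
    (hk : Nat.Coprime k l) (h : z ^ k = w ^ k) : z = w := by
  have h1 := norm_pow_sub_pow hk hz hw
  rw [h, sub_self, norm_zero] at h1
  exact sub_eq_zero.1 (norm_eq_zero.1 h1.symm)

/-- The square root, as a homomorphism. -/
noncomputable def rootHom : ℤ_[l]ˣ →* ℤ_[l] where
  toFun := rootVal hl2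
  map_one' := by
    apply root_unique (rootVal_lt hl2 1) (by simp) (coprime_two_mul hl2)
    rw [rootVal_pow]
    simp
  map_mul' x y := by
    apply root_unique (rootVal_lt hl2 _) (mul_sub_one_lt (rootVal_lt hl2 x) (rootVal_lt hl2 y))
      (coprime_two_mul hl2)
    rw [rootVal_pow, mul_pow, rootVal_pow, rootVal_pow, mul_inv, mul_pow, Units.val_mul]

lemma continuous_rootVal : Continuous (rootVal hl2) := by
  rw [continuous_iff_continuousAt]
  intro x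
  rw [ContinuousAt, Metric.tendsto_nhds]
  intro ε hε
  have hc : Continuous fun y : ℤ_[l]ˣ => ((y⁻¹ ^ (l - 1) : ℤ_[l]ˣ) : ℤ_[l]) :=
    Units.continuous_val.comp (continuous_inv.pow (l - 1))
  have h := Metric.tendsto_nhds.1 (hc.tendsto x) ε hε
  filter_upwards [h] with y hy
  rw [dist_eq_norm, norm_rootVal_sub, ← dist_eq_norm]
  exact hy

end Pool.Agent.V1143.HC
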